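import Mathlib

/-!
# Composition of proximally irreducible extensions of affine flows

The composition of two proximally irreducible extensions of affine `G`-flows is proximally
irreducible.
-/

set_option autoImplicit false
set_option linter.unusedSectionVars false

namespace Pool.Agent.Results.MP_d4114f_an.ProximallyIrreducibleComp

open Set Filter Topology

universe u v w x

/-! ### Definitions -/

/-- An affine `G`-flow: a compact convex set `K` in a topological vector space `E` with a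
continuous action `a` of `G` on `K` by affine homeomorphisms (only the values `a g x` with
`x ∈ K` matter). -/
structure IsAffineFlow {G : Type u} [Group G] [TopologicalSpace G] {E : Type v} [AddCommGroup E]
    [Module ℝ E] [TopologicalSpace E] (K : Set E) (a : G → E → E) : Prop where
  isCompact : IsCompact K
  convex : Convex ℝ K
  mapsTo : ∀ g, ∀ x ∈ K, a g x ∈ K
  one : ∀ x ∈ K, a 1 x = x
  mul : ∀ g h, ∀ x ∈ K, a (g * h) x = a g (a h x)
  cont : ContinuousOn (fun p : G × E => a p.1 p.2) (univ ×ˢ K)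
  affine : ∀ g, ∀ x ∈ K, ∀ y ∈ K, ∀ s t : ℝ, 0 ≤ s → 0 ≤ t → s + t = 1 →
    a g (s • x + t • y) = s • a g x + t • a g y

/-- An affine subflow of `K`: a compact convex invariant subset. -/
structure IsAffineSubflow {G : Type u} {E : Type v} [AddCommGroup E] [Module ℝ E]
    [TopologicalSpace E] (K : Set E) (a : G → E → E) (C : Set E) : Prop where
  subset : C ⊆ K
  isCompact : IsCompact C
  convex : Convex ℝ C
  mapsTo : ∀ g, ∀ x ∈ C, a g x ∈ C

/-- An affine extension `φ : L → K`: a continuous, affine, equivariant surjection. -/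
structure IsAffineExtension {G : Type u} {E : Type v} {F : Type w} [AddCommGroup E] [Module ℝ E]
    [TopologicalSpace E] [AddCommGroup F] [Module ℝ F] [TopologicalSpace F]
    (L : Set E) (a : G → E → E) (K : Set F) (b : G → F → F) (φ : E → F) : Prop where
  cont : ContinuousOn φ L
  image : φ '' L = K
  affine : ∀ x ∈ L, ∀ y ∈ L, ∀ s t : ℝ, 0 ≤ s → 0 ≤ t → s + t = 1 →
    φ (s • x + t • y) = s • φ x + t • φ y
  equivariant : ∀ g, ∀ x ∈ L, φ (a g x) = b g (φ x)

/-- The extension `φ : L → K` is proximally irreducible: an affine subflow `C` of `L` that meets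
the convex hull of `closure (ext L) ∩ φ⁻¹(y)` for every `y ∈ closure (ext K)` is equal to `L`. -/
def ProximallyIrreducible {G : Type u} {E : Type v} {F : Type w} [AddCommGroup E] [Module ℝ E]
    [TopologicalSpace E] [AddCommGroup F] [Module ℝ F] [TopologicalSpace F]
    (L : Set E) (a : G → E → E) (K : Set F) (φ : E → F) : Prop :=
  ∀ C : Set E, IsAffineSubflow L a C →
    (∀ y ∈ closure (K.extremePoints ℝ),
      (C ∩ convexHull ℝ (closure (L.extremePoints ℝ) ∩ φ ⁻¹' {y})).Nonempty) → C = L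

/-! ### Milman's theorem -/

section milman

variable {E : Type v} [AddCommGroup E] [Module ℝ E] [TopologicalSpace E]
  [IsTopologicalAddGroup E] [ContinuousSMul ℝ E]

lemma isCompact_convexJoin {A B : Set E} (hA : IsCompact A) (hB : IsCompact B) :
    IsCompact (convexJoin ℝ A B) := by
  have h : convexJoin ℝ A B =
      (fun p : ℝ × E × E => (1 - p.1) • p.2.1 + p.1 • p.2.2) '' (Icc 0 1 ×ˢ (A ×ˢ B)) := by
    ext z
    rw [mem_convexJoin]
    constructor
    · rintro ⟨x, hx, y, hy, hz⟩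
      rw [segment_eq_image] at hz
      obtain ⟨t, ht, rfl⟩ := hz
      exact ⟨(t, x, y), ⟨ht, hx, hy⟩, rfl⟩
    · rintro ⟨⟨t, x, y⟩, ⟨ht, hx, hy⟩, rfl⟩
      refine ⟨x, hx, y, hy, ?_⟩
      rw [segment_eq_image]
      exact ⟨t, ht, rfl⟩
  rw [h]
  refine (isCompact_Icc.prod (hA.prod hB)).image ?_
  fun_prop

lemma isCompact_convexHull_union {A B : Set E} (hA : IsCompact A) (hB : IsCompact B)
    (hAc : Convex ℝ A) (hBc : Convex ℝ B) : IsCompact (convexHull ℝ (A ∪ B)) := by
  rcases A.eq_empty_or_nonempty with rfl | hA0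
  · rw [empty_union, hBc.convexHull_eq]
    exact hB
  rcases B.eq_empty_or_nonempty with rfl | hB0
  · rw [union_empty, hAc.convexHull_eq]
    exact hA
  rw [hAc.convexHull_union hBc hA0 hB0]
  exact isCompact_convexJoin hA hB

lemma isCompact_convexHull_biUnion {ι : Type*} (s : Finset ι) (A : ι → Set E)
    (hA : ∀ i ∈ s, IsCompact (A i)) (hAc : ∀ i ∈ s, Convex ℝ (A i)) :
    IsCompact (convexHull ℝ (⋃ i ∈ s, A i)) := by
  classical
  induction s using Finset.induction_on with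
  | empty => simp
  | insert i s hi ih =>
    have h1 := ih (fun j hj => hA j (Finset.mem_insert_of_mem hj))
      (fun j hj => hAc j (Finset.mem_insert_of_mem hj))
    rw [Finset.set_biUnion_insert]
    have h2 : convexHull ℝ (A i ∪ ⋃ j ∈ s, A j) =
        convexHull ℝ (A i ∪ convexHull ℝ (⋃ j ∈ s, A j)) := by
      refine Subset.antisymm (convexHull_mono (union_subset_union_right _
        (subset_convexHull ℝ _))) ?_
      refine convexHull_min (union_subset ?_ ?_) (convex_convexHull ℝ _)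
      · exact subset_union_left.trans (subset_convexHull ℝ _)
      · exact convexHull_mono subset_union_right
    rw [h2]
    exact isCompact_convexHull_union (hA i (Finset.mem_insert_self _ _)) h1
      (hAc i (Finset.mem_insert_self _ _)) (convex_convexHull ℝ _)

/-- Milman's theorem. -/
lemma milman [T2Space E] [LocallyConvexSpace ℝ E] {S : Set E} (hS : IsCompact S)
    (hK : IsCompact (closure (convexHull ℝ S))) :
    (closure (convexHull ℝ S)).extremePoints ℝ ⊆ S := by
  intro x hx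
  by_contra hxS
  -- a closed convex symmetric neighbourhood of `0`
  have h1 : ∀ᶠ z in 𝓝 (0 : E), x + z ∉ S := by
    have h2 : Tendsto (fun z : E => x + z) (𝓝 0) (𝓝 (x + 0)) :=
      (continuous_const.add continuous_id).tendsto 0
    rw [add_zero] at h2
    exact h2.eventually (hS.isClosed.isOpen_compl.mem_nhds hxS)
  have h3 : ∀ᶠ z in 𝓝 (0 : E), x - z ∉ S := by
    have h2 : Tendsto (fun z : E => x - z) (𝓝 0) (𝓝 (x - 0)) :=
      (continuous_const.sub continuous_id).tendsto 0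
    rw [sub_zero] at h2
    exact h2.eventually (hS.isClosed.isOpen_compl.mem_nhds hxS)
  obtain ⟨V, ⟨hV0, hVc⟩, hV⟩ := (LocallyConvexSpace.convex_basis_zero ℝ E).mem_iff.1 h3
  obtain ⟨V', hV'0, hV'cl, hV'V⟩ := exists_mem_nhds_isClosed_subset hV0
  obtain ⟨V'', ⟨hV''0, hV''c⟩, hV''⟩ :=
    (LocallyConvexSpace.convex_basis_zero ℝ E).mem_iff.1 hV'0
  -- finite subcover
  obtain ⟨t, htS, ht⟩ := hS.elim_nhds_subcover (fun s => (fun z => z - s) ⁻¹' V'') (by
    intro s _
    have h2 : Tendsto (fun z : E => z - s) (𝓝 s) (𝓝 (s - s)) :=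
      (continuous_id.sub continuous_const).tendsto s
    rw [sub_self] at h2
    exact h2 hV''0)
  set A : E → Set E := fun s => closure (convexHull ℝ (S ∩ (fun z => z - s) ⁻¹' V'')) with hA
  have hAc : ∀ s, Convex ℝ (A s) := fun s => (convex_convexHull ℝ _).closure
  have hAK : ∀ s, A s ⊆ closure (convexHull ℝ S) := fun s =>
    closure_mono (convexHull_mono inter_subset_left)
  have hAcomp : ∀ s, IsCompact (A s) := fun s => hK.of_isClosed_subset isClosed_closure (hAK s)
  have hAV : ∀ s, ∀ z ∈ A s, z - s ∈ V' := by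
    intro s
    have h4 : IsClosed {z : E | z - s ∈ V'} := hV'cl.preimage (continuous_id.sub continuous_const)
    have h5 : convexHull ℝ (S ∩ (fun z => z - s) ⁻¹' V'') ⊆ {z : E | z - s ∈ V''} := by
      refine convexHull_min (fun z hz => hz.2) ?_
      have h6 := hV''c.translate_preimage_left (-s)
      have h7 : Convex ℝ ((fun x => x - s) ⁻¹' V'') := by
        simpa only [← sub_eq_add_neg] using h6
      exact h7
    have h7 : {z : E | z - s ∈ V''} ⊆ {z : E | z - s ∈ V'} := by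
      intro z hz
      have h8 : z - s ∈ id V'' := hz
      exact hV'' h8
    exact fun z hz => closure_minimal (h5.trans h7) h4 hz
  have hcomp := isCompact_convexHull_biUnion t A (fun s _ => hAcomp s) (fun s _ => hAc s)
  have hsub : closure (convexHull ℝ S) ⊆ convexHull ℝ (⋃ s ∈ t, A s) := by
    refine closure_minimal (convexHull_mono fun z hz => ?_) hcomp.isClosed
    obtain ⟨s, hs, hzs⟩ := mem_iUnion₂.1 (ht hz)
    exact mem_iUnion₂.2 ⟨s, hs, subset_closure (subset_convexHull ℝ _ ⟨hz, hzs⟩)⟩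
  have hsub2 : convexHull ℝ (⋃ s ∈ t, A s) ⊆ closure (convexHull ℝ S) :=
    convexHull_min (iUnion₂_subset fun s _ => hAK s) (convex_convexHull ℝ _).closure
  have heq := Subset.antisymm hsub hsub2
  rw [heq] at hx
  obtain ⟨s, hs, hxs⟩ := mem_iUnion₂.1 (extremePoints_convexHull_subset hx)
  have h6 := hV (hV'V (hAV s x hxs))
  apply h6
  rw [sub_sub_cancel]
  exact htS s hs

end milman

/-! ### Basic properties of affine flows -/

section flows

variable {G : Type u} [Group G] [TopologicalSpace G] {E : Type v} [AddCommGroup E] [Module ℝ E]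
  [TopologicalSpace E] {K : Set E} {a : G → E → E}

lemma IsAffineFlow.cont_act (h : IsAffineFlow K a) (g : G) : ContinuousOn (a g) K := by
  have h1 : ContinuousOn (fun x : E => (g, x)) K := (continuous_const.prodMk continuous_id).continuousOn
  exact h.cont.comp h1 fun x hx => ⟨mem_univ _, hx⟩

lemma IsAffineFlow.inv_act (h : IsAffineFlow K a) (g : G) {x : E} (hx : x ∈ K) :
    a g⁻¹ (a g x) = x := by
  rw [← h.mul _ _ x hx, inv_mul_cancel, h.one x hx]

lemma IsAffineFlow.act_inv (h : IsAffineFlow K a) (g : G) {x : E} (hx : x ∈ K) :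
    a g (a g⁻¹ x) = x := by
  rw [← h.mul _ _ x hx, mul_inv_cancel, h.one x hx]

lemma affine_sum {F : Type w} [AddCommGroup F] [Module ℝ F] {L : Set E} (hL : Convex ℝ L)
    {φ : E → F} (hφ : ∀ x ∈ L, ∀ y ∈ L, ∀ s t : ℝ, 0 ≤ s → 0 ≤ t → s + t = 1 →
      φ (s • x + t • y) = s • φ x + t • φ y) {ι : Type*} [Fintype ι] {l : ι → ℝ} {z : ι → E}
    (hl0 : ∀ i, 0 ≤ l i) (hl1 : ∑ i, l i = 1) (hz : ∀ i, z i ∈ L) :
    φ (∑ i, l i • z i) = ∑ i, l i • φ (z i) := by
  have hgraph : Convex ℝ {p : E × F | p.1 ∈ L ∧ p.2 = φ p.1} := by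
    rintro ⟨x, x'⟩ ⟨hx, hx'⟩ ⟨y, y'⟩ ⟨hy, hy'⟩ s t hs ht hst
    simp only at hx hx' hy hy'
    refine ⟨hL hx hy hs ht hst, ?_⟩
    simp only [Prod.smul_mk, Prod.mk_add_mk, hx', hy']
    exact (hφ x hx y hy s t hs ht hst).symm
  have h1 := hgraph.sum_mem (t := Finset.univ) (w := l) (z := fun i => (z i, φ (z i)))
    (fun i _ => hl0 i) hl1 (fun i _ => ⟨hz i, rfl⟩)
  have h2 : (∑ i, l i • ((z i, φ (z i)) : E × F)) =
      (∑ i, l i • z i, ∑ i, l i • φ (z i)) := by
    simp only [Prod.smul_mk]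
    rw [Prod.ext_iff]
    exact ⟨by rw [Prod.fst_sum], by rw [Prod.snd_sum]⟩
  rw [h2] at h1
  exact h1.2.symm

lemma IsAffineFlow.ext_inv (h : IsAffineFlow K a) (g : G) {x : E}
    (hx : x ∈ K.extremePoints ℝ) : a g x ∈ K.extremePoints ℝ := by
  rw [mem_extremePoints_iff_left] at hx ⊢
  refine ⟨h.mapsTo g x hx.1, fun y hy z hz hyz => ?_⟩
  obtain ⟨s, t, hs, ht, hst, hsum⟩ := hyz
  have h1 : x = s • a g⁻¹ y + t • a g⁻¹ z := by
    rw [← h.affine g⁻¹ y hy z hz s t hs.le ht.le hst, hsum, h.inv_act g hx.1]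
  have h2 := hx.2 (a g⁻¹ y) (h.mapsTo _ y hy) (a g⁻¹ z) (h.mapsTo _ z hz)
    ⟨s, t, hs, ht, hst, h1.symm⟩
  rw [← h2, h.act_inv g hy]

lemma IsAffineFlow.closure_inv [T2Space E] (h : IsAffineFlow K a) {S : Set E} (hSK : S ⊆ K)
    (hS : ∀ g, ∀ x ∈ S, a g x ∈ S) (g : G) {x : E} (hx : x ∈ closure S) : a g x ∈ closure S := by
  have h1 : closure S ⊆ K := closure_minimal hSK h.isCompact.isClosed
  have h2 := ((h.cont_act g).mono h1).image_closure
  refine closure_mono ?_ (h2 ⟨x, hx, rfl⟩)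
  rintro _ ⟨y, hy, rfl⟩
  exact hS g y hy

lemma ext_subset (K : Set E) : K.extremePoints ℝ ⊆ K := fun _ hx => hx.1

lemma IsAffineFlow.closure_ext_subset [T2Space E] (h : IsAffineFlow K a) :
    closure (K.extremePoints ℝ) ⊆ K :=
  closure_minimal (ext_subset K) h.isCompact.isClosed

lemma IsAffineFlow.isCompact_ext [T2Space E] (h : IsAffineFlow K a) :
    IsCompact (closure (K.extremePoints ℝ)) :=
  h.isCompact.of_isClosed_subset isClosed_closure h.closure_ext_subset

lemma IsAffineFlow.closure_ext_inv [T2Space E] (h : IsAffineFlow K a) (g : G) {x : E}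
    (hx : x ∈ closure (K.extremePoints ℝ)) : a g x ∈ closure (K.extremePoints ℝ) :=
  h.closure_inv (ext_subset K) (fun g _ hx => h.ext_inv g hx) g hx

/-- The closed convex hull of an invariant subset is an affine subflow. -/
lemma IsAffineFlow.subflow_hull [T2Space E] [IsTopologicalAddGroup E] [ContinuousSMul ℝ E]
    (h : IsAffineFlow K a) {S : Set E} (hSK : S ⊆ K) (hS : ∀ g, ∀ x ∈ S, a g x ∈ S) :
    IsAffineSubflow K a (closure (convexHull ℝ S)) := by
  have h1 : closure (convexHull ℝ S) ⊆ K :=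
    closure_minimal (convexHull_min hSK h.convex) h.isCompact.isClosed
  refine ⟨h1, h.isCompact.of_isClosed_subset isClosed_closure h1,
    (convex_convexHull ℝ S).closure, fun g => ?_⟩
  have hconv : Convex ℝ {x | x ∈ K ∧ a g x ∈ convexHull ℝ S} := by
    rintro x ⟨hx, hx'⟩ y ⟨hy, hy'⟩ s t hs ht hst
    refine ⟨h.convex hx hy hs ht hst, ?_⟩
    rw [h.affine g x hx y hy s t hs ht hst]
    exact convex_convexHull ℝ S hx' hy' hs ht hst
  have h2 : convexHull ℝ S ⊆ {x | x ∈ K ∧ a g x ∈ convexHull ℝ S} :=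
    convexHull_min (fun x hx => ⟨hSK hx, subset_convexHull ℝ S (hS g x hx)⟩) hconv
  intro x hx
  have h3 := ((h.cont_act g).mono h1).image_closure
  refine closure_mono ?_ (h3 ⟨x, hx, rfl⟩)
  rintro _ ⟨y, hy, rfl⟩
  exact (h2 hy).2

end flows

/-! ### Extensions -/

section extensions

variable {G : Type u} [Group G] [TopologicalSpace G]
  {E : Type v} [AddCommGroup E] [Module ℝ E] [TopologicalSpace E] [T2Space E]
  [IsTopologicalAddGroup E] [ContinuousSMul ℝ E] [LocallyConvexSpace ℝ E]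
  {F : Type w} [AddCommGroup F] [Module ℝ F] [TopologicalSpace F] [T2Space F]
  [IsTopologicalAddGroup F] [ContinuousSMul ℝ F] [LocallyConvexSpace ℝ F]
  {L : Set E} {a : G → E → E} {K : Set F} {b : G → F → F} {φ : E → F}

lemma IsAffineExtension.mapsTo (hφ : IsAffineExtension L a K b φ) {x : E} (hx : x ∈ L) :
    φ x ∈ K := hφ.image ▸ mem_image_of_mem φ hx

lemma IsAffineExtension.isClosed_preimage (hL : IsAffineFlow L a)
    (hφ : IsAffineExtension L a K b φ) {T : Set F} (hT : IsClosed T) :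
    IsClosed (L ∩ φ ⁻¹' T) :=
  hφ.cont.preimage_isClosed_of_isClosed hL.isCompact.isClosed hT

lemma IsAffineExtension.ext_surj (hL : IsAffineFlow L a) (hφ : IsAffineExtension L a K b φ)
    {y : F} (hy : y ∈ closure (K.extremePoints ℝ)) :
    ∃ z ∈ closure (L.extremePoints ℝ), φ z = y := by
  have h1 : K.extremePoints ℝ ⊆ φ '' closure (L.extremePoints ℝ) := by
    intro y hy
    have hT : IsCompact (L ∩ φ ⁻¹' {y}) :=
      hL.isCompact.of_isClosed_subset (hφ.isClosed_preimage hL isClosed_singleton)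
        inter_subset_left
    have hTne : (L ∩ φ ⁻¹' {y}).Nonempty := by
      have h2 := hy.1
      rw [← hφ.image] at h2
      obtain ⟨x, hx, hxy⟩ := h2
      exact ⟨x, hx, hxy⟩
    obtain ⟨x, hx⟩ := hT.extremePoints_nonempty hTne
    rw [mem_extremePoints_iff_left] at hx
    refine ⟨x, subset_closure ?_, hx.1.2⟩
    rw [mem_extremePoints_iff_left]
    refine ⟨hx.1.1, fun x1 h1 x2 h2 h12 => ?_⟩
    rw [mem_extremePoints] at hy
    have h3 : y ∈ openSegment ℝ (φ x1) (φ x2) := by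
      obtain ⟨s, t, hs, ht, hst, hsum⟩ := h12
      refine ⟨s, t, hs, ht, hst, ?_⟩
      rw [← hφ.affine x1 h1 x2 h2 s t hs.le ht.le hst, hsum]
      exact hx.1.2
    obtain ⟨h4, h5⟩ := hy.2 _ (hφ.mapsTo h1) _ (hφ.mapsTo h2) h3
    exact hx.2 x1 ⟨h1, h4⟩ x2 ⟨h2, h5⟩ h12
  have h2 : IsCompact (φ '' closure (L.extremePoints ℝ)) :=
    hL.isCompact_ext.image_of_continuousOn (hφ.cont.mono hL.closure_ext_subset)
  obtain ⟨z, hz, hzy⟩ := closure_minimal h1 h2.isClosed hy
  exact ⟨z, hz, hzy⟩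

/-- Criterion used repeatedly. -/
lemma ext_subset_of_meets (hL : IsAffineFlow L a) (hirr : ProximallyIrreducible L a K φ)
    {S : Set E} (hSL : S ⊆ L) (hSc : IsCompact S) (hSi : ∀ g, ∀ x ∈ S, a g x ∈ S)
    (hmeet : ∀ y ∈ closure (K.extremePoints ℝ), (closure (convexHull ℝ S) ∩
      convexHull ℝ (closure (L.extremePoints ℝ) ∩ φ ⁻¹' {y})).Nonempty) :
    closure (L.extremePoints ℝ) ⊆ S := by
  have hsub := hL.subflow_hull hSL hSi
  have heq := hirr _ hsub hmeet
  have h1 : L.extremePoints ℝ ⊆ S := by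
    rw [← heq]
    exact milman hSc hsub.isCompact
  exact closure_minimal h1 hSc.isClosed

lemma ext_mapsTo (hL : IsAffineFlow L a) (hK : IsAffineFlow K b)
    (hφ : IsAffineExtension L a K b φ) (hirr : ProximallyIrreducible L a K φ)
    {z : E} (hz : z ∈ closure (L.extremePoints ℝ)) : φ z ∈ closure (K.extremePoints ℝ) := by
  have hSL : closure (L.extremePoints ℝ) ∩ (L ∩ φ ⁻¹' closure (K.extremePoints ℝ)) ⊆ L :=
    fun x hx => hx.2.1
  have h1 := ext_subset_of_meets hL hirr hSL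
    (hL.isCompact_ext.inter_right (hφ.isClosed_preimage hL isClosed_closure))
    (by
      rintro g x ⟨hx1, hx2, hx3⟩
      refine ⟨hL.closure_ext_inv g hx1, hL.mapsTo g x hx2, ?_⟩
      change φ (a g x) ∈ closure (K.extremePoints ℝ)
      rw [hφ.equivariant g x hx2]
      exact hK.closure_ext_inv g hx3)
    (by
      intro y hy
      obtain ⟨z, hz, hzy⟩ := hφ.ext_surj hL hy
      refine ⟨z, subset_closure (subset_convexHull ℝ _ ⟨hz, hL.closure_ext_subset hz, ?_⟩),
        subset_convexHull ℝ _ ⟨hz, hzy⟩⟩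
      change φ z ∈ closure (K.extremePoints ℝ)
      rw [hzy]
      exact hy)
  exact (h1 hz).2.2

/-- Weighted configurations of `k + 1` points of `Z` in one fibre of `θ` with barycenter in
`C`. -/
def RR (Z C : Set E) (θ : E → F) (k : ℕ) : Set ((Fin (k + 1) → ℝ) × (Fin (k + 1) → E)) :=
  {p | ((∀ i, 0 ≤ p.1 i) ∧ ∑ i, p.1 i = 1) ∧ (∀ i, p.2 i ∈ Z) ∧ (∀ i, θ (p.2 i) = θ (p.2 0)) ∧
    ∑ i, p.1 i • p.2 i ∈ C}

lemma isCompact_RR {Z C : Set E} (hZ : IsCompact Z) (hC : IsClosed C) {θ : E → F}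
    (hθ : ContinuousOn θ Z) (k : ℕ) : IsCompact (RR Z C θ k) := by
  have hB : IsCompact ((stdSimplex ℝ (Fin (k + 1))) ×ˢ
      (Set.pi univ fun _ : Fin (k + 1) => Z)) :=
    (isCompact_stdSimplex ℝ (Fin (k + 1))).prod (isCompact_univ_pi fun _ => hZ)
  set B := (stdSimplex ℝ (Fin (k + 1))) ×ˢ (Set.pi univ fun _ : Fin (k + 1) => Z) with hBdef
  have h1 : ∀ i, IsClosed (B ∩ (fun p : (Fin (k + 1) → ℝ) × (Fin (k + 1) → E) =>
      (θ (p.2 i), θ (p.2 0))) ⁻¹' diagonal F) := by
    intro i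
    refine ContinuousOn.preimage_isClosed_of_isClosed ?_ hB.isClosed isClosed_diagonal
    have h2 : ∀ j : Fin (k + 1), ContinuousOn
        (fun p : (Fin (k + 1) → ℝ) × (Fin (k + 1) → E) => θ (p.2 j)) B := by
      intro j
      refine hθ.comp (Continuous.continuousOn (by fun_prop)) ?_
      intro p hp
      exact hp.2 j trivial
    exact (h2 i).prodMk (h2 0)
  have h3 : IsClosed ((fun p : (Fin (k + 1) → ℝ) × (Fin (k + 1) → E) =>
      ∑ i, p.1 i • p.2 i) ⁻¹' C) := hC.preimage (by fun_prop)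
  have h4 : RR Z C θ k = (B ∩ ⋂ i, (B ∩ (fun p : (Fin (k + 1) → ℝ) × (Fin (k + 1) → E) =>
      (θ (p.2 i), θ (p.2 0))) ⁻¹' diagonal F)) ∩
      (fun p : (Fin (k + 1) → ℝ) × (Fin (k + 1) → E) => ∑ i, p.1 i • p.2 i) ⁻¹' C := by
    ext p
    simp only [RR, mem_ofPred_eq, mem_inter_iff, mem_iInter, mem_preimage, mem_diagonal_iff,
      hBdef, mem_prod, Set.mem_pi, mem_univ, true_imp_iff, stdSimplex]
    constructor
    · rintro ⟨h5, h6, h7, h8⟩
      exact ⟨⟨⟨h5, h6⟩, fun i => ⟨⟨h5, h6⟩, h7 i⟩⟩, h8⟩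
    · rintro ⟨⟨⟨h5, h6⟩, h7⟩, h8⟩
      exact ⟨h5, h6, fun i => (h7 i).2, h8⟩
  rw [h4]
  exact (hB.inter_right (isClosed_iInter h1)).inter_right h3

omit [TopologicalSpace E] [T2Space E] [IsTopologicalAddGroup E] [ContinuousSMul ℝ E]
  [LocallyConvexSpace ℝ E] in
lemma exists_RR {Z C : Set E} {θ : E → F} {y : F}
    (h : (C ∩ convexHull ℝ (Z ∩ θ ⁻¹' {y})).Nonempty) :
    ∃ k, ∃ p ∈ RR Z C θ k, θ (p.2 0) = y := by
  obtain ⟨c, hcC, hc⟩ := h
  obtain ⟨ι, _, l, z, hl0, hl1, hz, hsum⟩ := mem_convexHull_iff_exists_fintype.1 hc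
  have hne : Nonempty ι := by
    by_contra hcon
    rw [not_nonempty_iff] at hcon
    simp at hl1
  obtain ⟨k, hk⟩ : ∃ k, Fintype.card ι = k + 1 :=
    ⟨Fintype.card ι - 1, by have := Fintype.card_pos (α := ι); omega⟩
  let e : Fin (k + 1) ≃ ι := (Fintype.equivFinOfCardEq hk).symm
  refine ⟨k, (l ∘ e, z ∘ e), ⟨⟨fun i => hl0 _, ?_⟩, fun i => (hz _).1, fun i => ?_, ?_⟩, ?_⟩
  · rw [← hl1]
    exact e.sum_comp l
  · exact ((hz (e i)).2 : θ _ = y).trans ((hz (e 0)).2 : θ _ = y).symm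
  · have h1 : ∑ i, (l ∘ e) i • (z ∘ e) i = c := by
      rw [← hsum]
      exact e.sum_comp fun i => l i • z i
    simp only
    rw [h1]
    exact hcC
  · exact (hz (e 0)).2

omit [TopologicalSpace E] [T2Space E] [IsTopologicalAddGroup E] [ContinuousSMul ℝ E]
  [LocallyConvexSpace ℝ E] in
lemma RR_meets {Z C : Set E} {θ : E → F} {k : ℕ} {p : (Fin (k + 1) → ℝ) × (Fin (k + 1) → E)}
    (hp : p ∈ RR Z C θ k) : (C ∩ convexHull ℝ (Z ∩ θ ⁻¹' {θ (p.2 0)})).Nonempty := by
  obtain ⟨⟨h1, h2⟩, h3, h4, h5⟩ := hp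
  exact ⟨_, h5, mem_convexHull_of_exists_fintype p.1 p.2 h1 h2 (fun i => ⟨h3 i, h4 i⟩) rfl⟩

end extensions

/-! ### The main theorem -/

/-- **Positive answer to Q1**: for every Polish group `G`, the composition of two proximally
irreducible extensions of affine `G`-flows is proximally irreducible. -/
theorem result (G : Type u) [Group G] [TopologicalSpace G] [IsTopologicalGroup G] [PolishSpace G]
    (E₁ : Type v) [AddCommGroup E₁] [Module ℝ E₁] [TopologicalSpace E₁] [T2Space E₁]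
    [IsTopologicalAddGroup E₁] [ContinuousSMul ℝ E₁] [LocallyConvexSpace ℝ E₁]
    (E₂ : Type w) [AddCommGroup E₂] [Module ℝ E₂] [TopologicalSpace E₂] [T2Space E₂]
    [IsTopologicalAddGroup E₂] [ContinuousSMul ℝ E₂] [LocallyConvexSpace ℝ E₂]
    (E₃ : Type x) [AddCommGroup E₃] [Module ℝ E₃] [TopologicalSpace E₃] [T2Space E₃]
    [IsTopologicalAddGroup E₃] [ContinuousSMul ℝ E₃] [LocallyConvexSpace ℝ E₃]
    (K : Set E₁) (c : G → E₁ → E₁) (L : Set E₂) (b : G → E₂ → E₂)
    (P : Set E₃) (a : G → E₃ → E₃)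
    (hK : IsAffineFlow K c) (hL : IsAffineFlow L b) (hP : IsAffineFlow P a)
    (φ : E₂ → E₁) (ψ : E₃ → E₂)
    (hφ : IsAffineExtension L b K c φ) (hψ : IsAffineExtension P a L b ψ)
    (hφirr : ProximallyIrreducible L b K φ) (hψirr : ProximallyIrreducible P a L ψ) :
    IsAffineExtension P a K c (φ ∘ ψ) ∧ ProximallyIrreducible P a K (φ ∘ ψ) := by
  have hψL : ∀ x ∈ P, ψ x ∈ L := fun x hx => hψ.mapsTo hx
  have hcomp : IsAffineExtension P a K c (φ ∘ ψ) := by
    refine ⟨hφ.cont.comp hψ.cont hψL, by rw [image_comp, hψ.image, hφ.image], ?_, ?_⟩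
    · intro x hx y hy s t hs ht hst
      simp only [Function.comp_apply]
      rw [hψ.affine x hx y hy s t hs ht hst,
        hφ.affine _ (hψL x hx) _ (hψL y hy) s t hs ht hst]
    · intro g x hx
      simp only [Function.comp_apply]
      rw [hψ.equivariant g x hx, hφ.equivariant g _ (hψL x hx)]
  refine ⟨hcomp, fun C hC hmeet => ?_⟩
  -- notation
  set X := closure (K.extremePoints ℝ) with hX
  set Y := closure (L.extremePoints ℝ) with hY
  set Z := closure (P.extremePoints ℝ) with hZ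
  have hXK : X ⊆ K := hK.closure_ext_subset
  have hYL : Y ⊆ L := hL.closure_ext_subset
  have hZP : Z ⊆ P := hP.closure_ext_subset
  have hYX : ∀ y ∈ Y, φ y ∈ X := fun y hy => ext_mapsTo hL hK hφ hφirr hy
  have hZY : ∀ z ∈ Z, ψ z ∈ Y := fun z hz => ext_mapsTo hP hL hψ hψirr hz
  have hCcl : IsClosed C := hC.isCompact.isClosed
  set θ : E₃ → E₁ := φ ∘ ψ with hθ
  -- the sets `X_k`
  have hRc : ∀ k, IsCompact (RR Z C θ k) := fun k =>
    isCompact_RR hP.isCompact_ext hCcl (hcomp.cont.mono hZP) k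
  set XX : ℕ → Set E₁ := fun k => (fun p : (Fin (k + 1) → ℝ) × (Fin (k + 1) → E₃) =>
    θ (p.2 0)) '' RR Z C θ k with hXXdef
  have hXXX : ∀ k, XX k ⊆ X := by
    rintro k _ ⟨p, hp, rfl⟩
    exact hYX _ (hZY _ (hp.2.1 0))
  have hXXcomp : ∀ k, IsCompact (XX k) := by
    intro k
    refine (hRc k).image_of_continuousOn ?_
    refine (hcomp.cont.mono hZP).comp (Continuous.continuousOn (by fun_prop)) ?_
    intro p hp
    exact hp.2.1 0
  have hXXcov : ∀ x ∈ X, ∃ k, x ∈ XX k := by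
    intro x hx
    obtain ⟨k, p, hp, hpx⟩ := exists_RR (hmeet x hx)
    exact ⟨k, p, hp, hpx⟩
  have hRinv : ∀ k g, ∀ p ∈ RR Z C θ k, ((p.1, fun i => a g (p.2 i)) :
      (Fin (k + 1) → ℝ) × (Fin (k + 1) → E₃)) ∈ RR Z C θ k := by
    rintro k g p ⟨⟨h1, h2⟩, h3, h4, h5⟩
    refine ⟨⟨h1, h2⟩, fun i => hP.closure_ext_inv g (h3 i), fun i => ?_, ?_⟩
    · simp only
      rw [hcomp.equivariant g _ (hZP (h3 i)), hcomp.equivariant g _ (hZP (h3 0)), h4 i]
    · simp only
      rw [← affine_sum hP.convex (hP.affine g) h1 h2 fun i => hZP (h3 i)]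
      exact hC.mapsTo g _ h5
  have hXXinv : ∀ k g, ∀ x ∈ XX k, c g x ∈ XX k := by
    rintro k g _ ⟨p, hp, rfl⟩
    refine ⟨_, hRinv k g p hp, ?_⟩
    simp only
    exact hcomp.equivariant g _ (hZP (hp.2.1 0))
  -- relative interiors
  set VV : ℕ → Set E₁ := fun k => ⋃₀ {O | IsOpen O ∧ O ∩ X ⊆ XX k} with hVVdef
  have hVVopen : ∀ k, IsOpen (VV k) := fun k => isOpen_sUnion fun O hO => hO.1
  have hVVX : ∀ k, VV k ∩ X ⊆ XX k := by
    rintro k x ⟨⟨O, hO, hxO⟩, hx⟩
    exact hO.2 ⟨hxO, hx⟩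
  have hVVinv : ∀ k g, ∀ x ∈ X, x ∈ VV k → c g x ∈ VV k := by
    intro k g x hx hxV
    have hcont : ContinuousOn (c g⁻¹) X := (hK.cont_act g⁻¹).mono hXK
    obtain ⟨O, hO, hOX⟩ := (continuousOn_iff'.1 hcont) (VV k) (hVVopen k)
    refine ⟨O, ⟨hO, ?_⟩, ?_⟩
    · rintro y ⟨hyO, hy⟩
      have h1 : y ∈ c g⁻¹ ⁻¹' VV k ∩ X := by
        rw [hOX]
        exact ⟨hyO, hy⟩
      have h2 : c g⁻¹ y ∈ XX k := hVVX k ⟨h1.1, hK.closure_ext_inv g⁻¹ hy⟩
      have h3 := hXXinv k g _ h2
      rwa [hK.act_inv g (hXK hy)] at h3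
    · have h1 : c g x ∈ c g⁻¹ ⁻¹' VV k ∩ X := by
        refine ⟨?_, hK.closure_ext_inv g hx⟩
        change c g⁻¹ (c g x) ∈ VV k
        rw [hK.inv_act g (hXK hx)]
        exact hxV
      rw [hOX] at h1
      exact h1.1
  -- Baire
  have hdense : ∀ x ∈ X, ∀ O : Set E₁, IsOpen O → x ∈ O → ∃ k, ∃ y ∈ X, y ∈ O ∧ y ∈ VV k := by
    intro x hx O hO hxO
    have : CompactSpace X := isCompact_iff_compactSpace.1 hK.isCompact_ext
    have hd := dense_iUnion_interior_of_closed (X := X) (f := fun k => Subtype.val ⁻¹' XX k)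
      (fun k => (hXXcomp k).isClosed.preimage continuous_subtype_val)
      (eq_univ_of_forall fun x => by
        obtain ⟨k, hk⟩ := hXXcov x.1 x.2
        exact mem_iUnion.2 ⟨k, hk⟩)
    obtain ⟨y, hyO, hy⟩ := hd.exists_mem_open (hO.preimage continuous_subtype_val) ⟨⟨x, hx⟩, hxO⟩
    obtain ⟨k, hk⟩ := mem_iUnion.1 (by simpa using hyO : y ∈ ⋃ k, interior
      (Subtype.val ⁻¹' XX k : Set X))
    refine ⟨k, y.1, y.2, hy, ?_⟩
    obtain ⟨O', hO', hO'eq⟩ := isOpen_induced_iff.1 (isOpen_interior (s := (Subtype.val ⁻¹' XX k :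
      Set X)))
    refine ⟨O', ⟨hO', ?_⟩, ?_⟩
    · rintro z ⟨hz, hzX⟩
      have h1 : (⟨z, hzX⟩ : X) ∈ interior (Subtype.val ⁻¹' XX k : Set X) := by
        rw [← hO'eq]
        exact hz
      have h2 : (⟨z, hzX⟩ : X) ∈ (Subtype.val ⁻¹' XX k : Set X) := interior_subset h1
      exact h2
    · have h1 : y ∈ Subtype.val ⁻¹' O' := by
        rw [hO'eq]
        exact hk
      exact h1
  -- step (i): extreme points of `L` over `VV k` are hit by `C`
  set YY : ℕ → Set E₂ := fun k => (fun p : (Fin (k + 1) → ℝ) × (Fin (k + 1) → E₃) =>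
    ψ (p.2 0)) '' RR Z C ψ k with hYYdef
  have hYYcomp : ∀ k, IsCompact (YY k) := by
    intro k
    refine (isCompact_RR hP.isCompact_ext hCcl (hψ.cont.mono hZP) k).image_of_continuousOn ?_
    refine (hψ.cont.mono hZP).comp (Continuous.continuousOn (by fun_prop)) ?_
    intro p hp
    exact hp.2.1 0
  have hYYmeets : ∀ k, ∀ y ∈ YY k, (C ∩ convexHull ℝ (Z ∩ ψ ⁻¹' {y})).Nonempty := by
    rintro k _ ⟨p, hp, rfl⟩
    exact RR_meets hp
  have hMc : ∀ k, IsCompact ((fun p : (Fin (k + 1) → ℝ) × (Fin (k + 1) → E₃) =>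
      ψ (∑ i, p.1 i • p.2 i)) '' RR Z C θ k) := by
    intro k
    refine (hRc k).image_of_continuousOn ?_
    refine (hψ.cont).comp (Continuous.continuousOn (by fun_prop)) ?_
    intro p hp
    exact hC.subset hp.2.2.2
  have hstep1 : ∀ k, ∀ y ∈ L.extremePoints ℝ, φ y ∈ VV k → y ∈ YY k := by
    intro k
    have hcl := hφ.isClosed_preimage hL (hVVopen k).isClosed_compl
    have hS := ext_subset_of_meets hL hφirr
      (S := (fun p : (Fin (k + 1) → ℝ) × (Fin (k + 1) → E₃) =>
        ψ (∑ i, p.1 i • p.2 i)) '' RR Z C θ k ∪ (Y ∩ (L ∩ φ ⁻¹' (VV k)ᶜ)))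
      (by
        refine union_subset ?_ fun y hy => hYL hy.1
        rintro _ ⟨p, hp, rfl⟩
        exact hψL _ (hC.subset hp.2.2.2))
      ((hMc k).union (hL.isCompact_ext.inter_right hcl))
      (by
        rintro g y (⟨p, hp, rfl⟩ | ⟨hy1, hy2, hy3⟩)
        · left
          refine ⟨_, hRinv k g p hp, ?_⟩
          simp only
          rw [← affine_sum hP.convex (hP.affine g) hp.1.1 hp.1.2 fun i => hZP (hp.2.1 i),
            hψ.equivariant g _ (hC.subset hp.2.2.2)]
        · right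
          refine ⟨hL.closure_ext_inv g hy1, hL.mapsTo g y hy2, ?_⟩
          change φ (b g y) ∉ VV k
          rw [hφ.equivariant g y hy2]
          intro hcon
          have h1 := hVVinv k g⁻¹ _ (hK.closure_ext_inv g (hYX y hy1)) hcon
          rw [hK.inv_act g (hφ.mapsTo hy2)] at h1
          exact hy3 h1)
      (by
        intro x hx
        by_cases hxV : x ∈ VV k
        · obtain ⟨p, hp, hpx⟩ := hVVX k ⟨hxV, hx⟩
          refine ⟨ψ (∑ i, p.1 i • p.2 i), subset_closure (subset_convexHull ℝ _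
            (Or.inl ⟨p, hp, rfl⟩)), ?_⟩
          rw [affine_sum hP.convex hψ.affine hp.1.1 hp.1.2 fun i => hZP (hp.2.1 i)]
          refine mem_convexHull_of_exists_fintype p.1 (fun i => ψ (p.2 i)) hp.1.1 hp.1.2
            (fun i => ⟨hZY _ (hp.2.1 i), ?_⟩) rfl
          exact (hp.2.2.1 i).trans hpx
        · obtain ⟨y, hy, hyx⟩ := hφ.ext_surj hL hx
          refine ⟨y, subset_closure (subset_convexHull ℝ _ (Or.inr ⟨hy, hYL hy, ?_⟩)),
            subset_convexHull ℝ _ ⟨hy, hyx⟩⟩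
          change φ y ∉ VV k
          rw [hyx]
          exact hxV)
    intro y hy hyV
    rcases hS (subset_closure hy) with ⟨p, hp, hpy⟩ | h
    · -- `y` is extreme, so all `ψ (p.2 i)` with positive weight are equal to `y`
      simp only at hpy
      rw [affine_sum hP.convex hψ.affine hp.1.1 hp.1.2 fun i => hZP (hp.2.1 i)] at hpy
      obtain ⟨⟨hl0, hl1⟩, hz, -, hbar⟩ := hp
      have hpos : ∀ i, 0 < p.1 i → ψ (p.2 i) = y := by
        intro i hi
        rw [mem_extremePoints_iff_left] at hy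
        set δ := p.1 i with hδ
        have hu : ∑ j, ((1 + δ) * p.1 j - if j = i then δ else 0) • ψ (p.2 j) =
            (1 + δ) • y - δ • ψ (p.2 i) := by
          simp only [sub_smul, Finset.sum_sub_distrib, mul_smul, ← Finset.smul_sum, hpy,
            ite_smul, zero_smul, Finset.sum_ite_eq', Finset.mem_univ, if_true]
        have huL : (1 + δ) • y - δ • ψ (p.2 i) ∈ L := by
          rw [← hu]
          refine hL.convex.sum_mem (fun j _ => ?_) ?_ fun j _ => hψL _ (hZP (hz j))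
          · by_cases hj : j = i
            · subst hj
              simp only [if_true]
              nlinarith
            · simp only [if_neg hj, sub_zero]
              exact mul_nonneg (by linarith) (hl0 j)
          · simp only [Finset.sum_sub_distrib, ← Finset.mul_sum, hl1, Finset.sum_ite_eq',
              Finset.mem_univ, if_true]
            ring
        refine hy.2 _ (hψL _ (hZP (hz i))) _ huL ⟨δ / (1 + δ), 1 / (1 + δ), by positivity,
          by positivity, by field_simp; ring, ?_⟩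
        rw [smul_sub, smul_smul, smul_smul]
        have e1 : 1 / (1 + δ) * (1 + δ) = 1 := by field_simp
        have e2 : 1 / (1 + δ) * δ = δ / (1 + δ) := by ring
        rw [e1, e2, one_smul]
        abel
      obtain ⟨i0, hi0⟩ : ∃ i, 0 < p.1 i := by
        by_contra hcon
        push Not at hcon
        have : ∑ i, p.1 i ≤ 0 := Finset.sum_nonpos fun i _ => hcon i
        linarith
      have hz' : ∀ i, ψ (if 0 < p.1 i then p.2 i else p.2 i0) = y := by
        intro i
        split_ifs with h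
        · exact hpos i h
        · exact hpos i0 hi0
      refine ⟨(p.1, fun i => if 0 < p.1 i then p.2 i else p.2 i0), ⟨⟨hl0, hl1⟩, fun i => ?_,
        fun i => (hz' i).trans (hz' 0).symm, ?_⟩, hz' 0⟩
      · simp only
        split_ifs
        · exact hz i
        · exact hz i0
      · have e : ∑ i, p.1 i • (if 0 < p.1 i then p.2 i else p.2 i0) = ∑ i, p.1 i • p.2 i := by
          refine Finset.sum_congr rfl fun i _ => ?_
          by_cases h : 0 < p.1 i
          · rw [if_pos h]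
          · have h0 : p.1 i = 0 := le_antisymm (not_lt.1 h) (hl0 i)
            rw [h0, zero_smul, zero_smul]
        simp only
        rw [e]
        exact hbar
    · exact absurd hyV h.2.2
  have hstep2 : ∀ k, ∀ y ∈ Y, φ y ∈ VV k → y ∈ YY k := by
    intro k y hy hyV
    by_contra hcon
    obtain ⟨O, hO, hOL⟩ := (continuousOn_iff'.1 hφ.cont) (VV k) (hVVopen k)
    have h1 : y ∈ O ∩ (YY k)ᶜ := by
      refine ⟨?_, hcon⟩
      have h2 : y ∈ φ ⁻¹' VV k ∩ L := ⟨hyV, hYL hy⟩
      rw [hOL] at h2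
      exact h2.1
    obtain ⟨y', ⟨hy'O, hy'Y⟩, hy'⟩ := mem_closure_iff.1 hy _
      (hO.inter (hYYcomp k).isClosed.isOpen_compl) h1
    have h2 : y' ∈ φ ⁻¹' VV k ∩ L := by
      rw [hOL]
      exact ⟨hy'O, hy'.1⟩
    exact hy'Y (hstep1 k y' hy' h2.1)
  -- step (ii): the points of `Y` over the dense open set are dense
  have hVVinv' : ∀ k g, ∀ x ∈ X, c g x ∈ VV k → x ∈ VV k := by
    intro k g x hx h
    have h1 := hVVinv k g⁻¹ _ (hK.closure_ext_inv g hx) h
    rwa [hK.inv_act g (hXK hx)] at h1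
  set W : Set E₂ := {y | y ∈ Y ∧ ∃ k, φ y ∈ VV k} with hW
  have hWY : closure W ⊆ Y := closure_minimal (fun y hy => hy.1) isClosed_closure
  have hYW : Y ⊆ closure W := by
    refine ext_subset_of_meets hL hφirr (hWY.trans hYL)
      (hL.isCompact.of_isClosed_subset isClosed_closure (hWY.trans hYL)) ?_ ?_
    · intro g y hy
      refine hL.closure_inv (fun y hy => hYL hy.1) ?_ g hy
      rintro g y ⟨hy, k, hk⟩
      refine ⟨hL.closure_ext_inv g hy, k, ?_⟩
      rw [hφ.equivariant g y (hYL hy)]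
      exact hVVinv k g _ (hYX y hy) hk
    · intro x hx
      have h1 : IsCompact (φ '' closure W) :=
        (hL.isCompact.of_isClosed_subset isClosed_closure (hWY.trans hYL)).image_of_continuousOn
          (hφ.cont.mono (hWY.trans hYL))
      have h2 : x ∈ φ '' closure W := by
        by_contra hcon
        obtain ⟨k, x', hx', hx'W, hx'V⟩ := hdense x hx _ h1.isClosed.isOpen_compl hcon
        obtain ⟨w, hw, hwx⟩ := hφ.ext_surj hL hx'
        exact hx'W ⟨w, subset_closure ⟨hw, k, by rw [hwx]; exact hx'V⟩, hwx⟩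
      obtain ⟨y, hy, hyx⟩ := h2
      exact ⟨y, subset_closure (subset_convexHull ℝ _ hy),
        subset_convexHull ℝ _ ⟨hWY hy, hyx⟩⟩
  -- step (iii)
  have hstep3 : ∀ z ∈ Z, (∃ k, θ z ∈ VV k) → z ∈ C := by
    have hcl := hcomp.isClosed_preimage hP (isOpen_iUnion hVVopen).isClosed_compl
    have hS := ext_subset_of_meets hP hψirr (S := C ∪ (Z ∩ (P ∩ θ ⁻¹' (⋃ k, VV k)ᶜ)))
      (union_subset hC.subset fun z hz => hz.2.1)
      (hC.isCompact.union (hP.isCompact_ext.inter_right hcl))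
      (by
        rintro g z (hz | ⟨hz1, hz2, hz3⟩)
        · exact Or.inl (hC.mapsTo g z hz)
        · right
          refine ⟨hP.closure_ext_inv g hz1, hP.mapsTo g z hz2, ?_⟩
          change θ (a g z) ∉ ⋃ k, VV k
          rw [hcomp.equivariant g z hz2]
          intro hcon
          obtain ⟨k, hk⟩ := mem_iUnion.1 hcon
          exact hz3 (mem_iUnion.2 ⟨k, hVVinv' k g _ (hYX _ (hZY _ hz1)) hk⟩))
      (by
        intro y hy
        by_cases hyV : ∃ k, φ y ∈ VV k
        · obtain ⟨k, hk⟩ := hyV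
          obtain ⟨z, hz1, hz2⟩ := hYYmeets k y (hstep2 k y hy hk)
          exact ⟨z, subset_closure (subset_convexHull ℝ _ (Or.inl hz1)), hz2⟩
        · obtain ⟨z, hz, hzy⟩ := hψ.ext_surj hP hy
          refine ⟨z, subset_closure (subset_convexHull ℝ _ (Or.inr ⟨hz, hZP hz, ?_⟩)),
            subset_convexHull ℝ _ ⟨hz, hzy⟩⟩
          intro hcon
          obtain ⟨k, hk⟩ := mem_iUnion.1 hcon
          refine hyV ⟨k, ?_⟩
          rw [← hzy]
          exact hk)
    rintro z hz ⟨k, hk⟩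
    rcases hS hz with h | h
    · exact h
    · exact absurd (mem_iUnion.2 ⟨k, hk⟩) h.2.2
  -- step (iv)
  set S' : Set E₃ := closure {z | z ∈ Z ∧ ∃ k, θ z ∈ VV k} with hS'
  have hS'C : S' ⊆ C := closure_minimal (fun z hz => hstep3 z hz.1 hz.2) hCcl
  have hS'Z : S' ⊆ Z := closure_minimal (fun z hz => hz.1) isClosed_closure
  have hS'c : IsCompact S' :=
    hP.isCompact.of_isClosed_subset isClosed_closure (hS'Z.trans hZP)
  have hZS' : Z ⊆ S' := by
    refine ext_subset_of_meets hP hψirr (hS'Z.trans hZP) hS'c ?_ ?_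
    · intro g z hz
      refine hP.closure_inv (fun z hz => hZP hz.1) ?_ g hz
      rintro g z ⟨hz, k, hk⟩
      refine ⟨hP.closure_ext_inv g hz, k, ?_⟩
      rw [hcomp.equivariant g z (hZP hz)]
      exact hVVinv k g _ (hYX _ (hZY _ hz)) hk
    · intro y hy
      have h1 : IsCompact (ψ '' S') :=
        hS'c.image_of_continuousOn (hψ.cont.mono (hS'Z.trans hZP))
      have h2 : W ⊆ ψ '' S' := by
        rintro w ⟨hw, k, hk⟩
        obtain ⟨z, hz, hzw⟩ := hψ.ext_surj hP hw
        refine ⟨z, subset_closure ⟨hz, k, ?_⟩, hzw⟩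
        change φ (ψ z) ∈ VV k
        rw [hzw]
        exact hk
      obtain ⟨z, hz, hzy⟩ := closure_minimal h2 h1.isClosed (hYW hy)
      exact ⟨z, subset_closure (subset_convexHull ℝ _ hz),
        subset_convexHull ℝ _ ⟨hS'Z hz, hzy⟩⟩
  refine Subset.antisymm hC.subset ?_
  rw [← closure_convexHull_extremePoints hP.isCompact hP.convex]
  refine closure_minimal (convexHull_min (fun z hz => ?_) hC.convex) hCcl
  exact hS'C (hZS' (subset_closure hz))

end Pool.Agent.Results.MP_d4114f_an.ProximallyIrreducibleComp
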